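import Pool.Agent.V11262.ER.Lim

/-!
# An explicit strong-coupling region with a mass gap for `SU(2)` lattice gauge theory on `ℤ⁴`
-/

set_option autoImplicit false

noncomputable section

namespace Pool.Agent.Results.MP_7f377f_mp.ExplicitRegionSU2

open MeasureTheory

/-- `SU(2)`, as the group of the unit quaternions; half the trace is the real part. -/
abbrev SU2 : Type := Metric.sphere (0 : Quaternion ℝ) 1

/-- The sites of `ℤ⁴`; `dist` is the sup-norm distance. -/
abbrev Site : Type := Fin 4 → ℤ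

/-- The links of `ℤ⁴`: `(x, i)` is the link from `x` to `x + e_i`. -/
abbrev Link : Type := Site × Fin 4

/-- The plaquettes of `ℤ⁴`: `(x, i, j)` with `i < j` is the plaquette with the corners `x`,
`x + e_i`, `x + e_i + e_j`, `x + e_j`. -/
abbrev Plaq : Type := {p : Site × Fin 4 × Fin 4 // p.2.1 < p.2.2}

/-- The four links of a plaquette. -/
def links (p : Plaq) : Finset Link :=
  {(p.1.1, p.1.2.1), (p.1.1 + Pi.single p.1.2.1 1, p.1.2.2),
    (p.1.1 + Pi.single p.1.2.2 1, p.1.2.1), (p.1.1, p.1.2.2)}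

/-- The plaquette variable `U_p = U(x, i) U(x + e_i, j) U(x + e_j, i)⁻¹ U(x, j)⁻¹`. -/
def plaquette (U : Link → SU2) (p : Plaq) : SU2 :=
  U (p.1.1, p.1.2.1) * U (p.1.1 + Pi.single p.1.2.1 1, p.1.2.2) *
    (U (p.1.1 + Pi.single p.1.2.2 1, p.1.2.1))⁻¹ * (U (p.1.1, p.1.2.2))⁻¹

/-- The Wilson weight `exp (∑_{p ∈ Λ} β_p · ½ tr U_p)`. -/
def weight (β : Plaq → ℝ) (Λ : Finset Plaq) (U : Link → SU2) : ℝ :=
  Real.exp (∑ p ∈ Λ, β p * (plaquette U p : Quaternion ℝ).re)

/-- The expectation of `F` in the finite region `Λ`, a finite set of plaquettes, with free boundary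
conditions. -/
def expect [MeasurableSpace SU2] (μ : Measure SU2) (β : Plaq → ℝ) (Λ : Finset Plaq)
    (F : (Link → SU2) → ℝ) : ℝ :=
  (∫ U, F U * weight β Λ U ∂(Measure.infinitePi fun _ : Link => μ)) /
    ∫ U, weight β Λ U ∂(Measure.infinitePi fun _ : Link => μ)

/-- `F` is invariant under the gauge transformations
`U(x, i) ↦ γ(x) U(x, i) γ(x + e_i)⁻¹`. -/
def GaugeInvariant (F : (Link → SU2) → ℝ) : Prop :=
  ∀ (γ : Site → SU2) (U : Link → SU2),
    F (fun e => γ e.1 * U e * (γ (e.1 + Pi.single e.2 1))⁻¹) = F U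

/-- `F` is a Lipschitz function, with constant `K`, of the variables of the links in `A`. -/
def Lipschitz (K : ℝ) (A : Finset Link) (F : (Link → SU2) → ℝ) : Prop :=
  ∀ U V : Link → SU2, |F U - F V| ≤ K * ∑ e ∈ A, ‖(U e : Quaternion ℝ) - V e‖

/-- `h` is a bounded measurable function of the variables of the links in `B`. -/
def Local [MeasurableSpace SU2] (B : Finset Link) (h : (Link → SU2) → ℝ) : Prop :=
  Measurable h ∧ (∃ C, ∀ U, |h U| ≤ C) ∧ ∀ U V : Link → SU2, (∀ e ∈ B, U e = V e) → h U = h V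

/-- The distance of the links in `A` from the links in `B` is at least `D`. -/
def Apart (D : ℕ) (A B : Finset Link) : Prop := ∀ e ∈ A, ∀ f ∈ B, (D : ℝ) ≤ dist e.1 f.1

/-- **Mass gap in an explicit region.**  Let the (real, site-dependent) coupling constants `β_p` of
the `SU(2)` lattice gauge theory on `ℤ⁴` with the Wilson weights `exp (β_p · ½ tr U_p)` satisfy
`∑_{p ∋ e} |β_p| ≤ s < √3` for every link `e`; for equal couplings this is `|β| ≤ s / 6`, with
`s / 6 < 1 / (2√3) = 0.288…`.  Then, with `m = log (√3 / s) > 0`: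
the expectations of the gauge-invariant Lipschitz functions `F` of the links in a finite set `A`
converge to those in an infinite-volume state, with the error `2 K |A| exp (- m D)` in every finite
region `Λ` whose complement has distance at least `D` from `A`; and for `h` gauge-invariant and
depending on links at distance at least `D` from `A`,
`|⟨F h⟩ - ⟨F⟩ ⟨h⟩| ≤ 2 K |A| exp (- m D) ⟨|h|⟩`, in every finite region, for all bounded measurable
`h`, and in infinite volume, for all Lipschitz `h`. -/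
theorem result [MeasurableSpace SU2] [BorelSpace SU2] (μ : Measure SU2) [IsProbabilityMeasure μ]
    [μ.IsHaarMeasure] (s : ℝ) (hs0 : 0 < s) (hs : s < Real.sqrt 3) (β : Plaq → ℝ)
    (hβ : ∀ e : Link, ∀ T : Finset Plaq, (∀ p ∈ T, e ∈ links p) → ∑ p ∈ T, |β p| ≤ s) :
    ∃ m : ℝ, m = Real.log (Real.sqrt 3 / s) ∧ 0 < m ∧
    ∃ state : ((Link → SU2) → ℝ) → ℝ,
      (∀ (K : ℝ) (A : Finset Link) (F : (Link → SU2) → ℝ), 0 ≤ K → Lipschitz K A F →
        GaugeInvariant F → ∀ (Λ : Finset Plaq) (D : ℕ), (∀ p, p ∉ Λ → Apart D A (links p)) →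
          |expect μ β Λ F - state F| ≤ 2 * K * A.card * Real.exp (-(m * D))) ∧
      ∀ (K : ℝ) (A B : Finset Link) (F h : (Link → SU2) → ℝ) (D : ℕ), 0 ≤ K → Lipschitz K A F →
        GaugeInvariant F → GaugeInvariant h → Apart D A B →
        (Local B h → ∀ Λ : Finset Plaq,
          |expect μ β Λ (fun U => F U * h U) - expect μ β Λ F * expect μ β Λ h| ≤
            2 * K * A.card * Real.exp (-(m * D)) * expect μ β Λ fun U => |h U|) ∧
        ∀ K' : ℝ, 0 ≤ K' → Lipschitz K' B h →
          |state (fun U => F U * h U) - state F * state h| ≤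
            2 * K * A.card * Real.exp (-(m * D)) * state fun U => |h U| := by
  have hm : ∀ D : ℕ, Real.exp (-(Real.log (Real.sqrt 3 / s) * D)) = (s / Real.sqrt 3) ^ D := by
    intro D
    have h3 : 0 < Real.sqrt 3 := Real.sqrt_pos.2 (by norm_num)
    rw [Real.exp_neg, mul_comm, Real.exp_nat_mul, Real.exp_log (by positivity), ← inv_pow, inv_div]
  refine ⟨Real.log (Real.sqrt 3 / s), rfl, Real.log_pos (by rw [one_lt_div hs0]; exact hs), ?_⟩
  obtain ⟨state, h1, h2⟩ := Pool.Agent.V11262.ER.main μ hs0 hs β hβ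
  refine ⟨state, ?_, ?_⟩
  · intro K A F hK hF hi Λ D hD
    rw [hm]
    exact h1 K A F hK hF hi Λ D hD
  · intro K A B F h D hK hF hi hh hAB
    rw [hm]
    obtain ⟨h3, h4⟩ := h2 K A B F h D hK hF hi hh hAB
    exact ⟨fun hl Λ => h3 hl.1 hl.2.1 hl.2.2 Λ, h4⟩

end Pool.Agent.Results.MP_7f377f_mp.ExplicitRegionSU2
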