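import Mathlib
import Pool.Agent.V11322.YM.Mn

/-!
# Lattice Yang-Mills theory: the mass gap at weak coupling is at most of order `β ^ (-1 / 2)`

Wilson's lattice gauge theory on the periodic lattice `(ℤ/l)^d`, `d = D + 1 ≥ 3`, with gauge group a
closed subgroup `G` of `U(N)` of positive dimension: the probability measure on `G ^ links` with
density proportional to `exp (-β ∑_p Re tr (1 - U_p))` with respect to the Haar measure. Put
`δ(β) = log β / √β` if `d = 3`, `δ(β) = √(log β / β)` if `d = 4`, and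
`δ(β) = β ^ (-1 / (d - 2))` if `d ≥ 5`. For all large `β` there is a local gauge invariant observable
`F`, supported in a cube of side at most `C / δ(β)` in the time slice `0`, of variance at least
`c > 0`, such that the correlation coefficient of `F` and of its translate by `t` units of time is
at least `exp (- C δ(β) t)` for odd `t`, in all volumes and in all infinite volume limits. Hence the
mass gap, the rate of exponential decay of the truncated time correlations, is at most `C δ(β)`.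
-/

open MeasureTheory Matrix Filter Pool.Agent.Y14.Wilson
open scoped Matrix.Norms.Frobenius Topology

namespace Pool.Agent.Results.MP_7f377f_mp.MassGapSquareRoot

/-- The bound for the mass gap in dimension `d = D + 1`: `log β / √β` for `d = 3`,
`√(log β) / √β` for `d = 4`, and `β ^ (-1 / (d - 2))` for `d ≥ 5`. -/
noncomputable def gapBound (D : ℕ) (β : ℝ) : ℝ :=
  if D = 2 then Real.log β / Real.sqrt β else if D = 3 then Real.sqrt (Real.log β) / Real.sqrt β
  else β ^ (-(1 / ((D : ℝ) - 1)))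

lemma gapBound_eq {D : ℕ} (hD : 2 ≤ D) {β : ℝ} (hβ : 0 < β) :
    Pool.Agent.V11322.Wilson.lgf D β * β ^ (-(1 / (Pool.Agent.V11322.Wilson.pw D : ℝ))) =
      gapBound D β := by
  unfold gapBound Pool.Agent.V11322.Wilson.lgf Pool.Agent.V11322.Wilson.pw
  have hs : β ^ (-(1 / ((2 : ℕ) : ℝ))) = (Real.sqrt β)⁻¹ := by
    rw [Real.rpow_neg hβ.le, Real.sqrt_eq_rpow]
    norm_num
  by_cases h2 : D = 2
  · subst h2
    simp only [if_true]
    rw [show max 2 (2 - 1) = 2 from rfl, hs, div_eq_mul_inv]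
  · by_cases h3 : D = 3
    · subst h3
      simp only [if_true]
      rw [if_neg h2, if_neg h2, show max 2 (3 - 1) = 2 from rfl, hs, div_eq_mul_inv]
    · rw [if_neg h2, if_neg h2, if_neg h3, if_neg h3, one_mul]
      have h4 : max 2 (D - 1) = D - 1 := max_eq_right (by omega)
      rw [h4, Nat.cast_sub (by omega), Nat.cast_one]

lemma gapBound_inv {D : ℕ} (hD : 2 ≤ D) {β : ℝ} (hβ : 0 < β) :
    β ^ (1 / (Pool.Agent.V11322.Wilson.pw D : ℝ)) / Pool.Agent.V11322.Wilson.lgf D β =
      (gapBound D β)⁻¹ := by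
  rw [← gapBound_eq hD hβ, Real.rpow_neg hβ.le, mul_inv, inv_inv, div_eq_mul_inv, mul_comm]

theorem result {N n D : ℕ} (G : Subgroup (UU N)) (hG : IsClosed (G : Set (UU N)))
    [MeasurableSpace G] [BorelSpace G] (μ : Measure G) [IsProbabilityMeasure μ] [μ.IsHaarMeasure]
    (B : LieBasis G n) (hn : 1 ≤ n) (hD : 2 ≤ D) :
    ∃ C c β₀ : ℝ, 0 < C ∧ 0 < c ∧ 0 < β₀ ∧ ∀ β : ℝ, β₀ ≤ β →
      (∃ (R : ℕ) (F : (LinkZ (D + 1) → G) → ℝ), (R : ℝ) ≤ C * (gapBound D β)⁻¹ ∧
        IsLocal R F ∧ AtTimeZero F ∧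
        (∀ (l : ℕ) [NeZero l], Even l → R < l → c ≤ corr l μ β F 0 ∧ ∀ t : ℕ, Odd t → t < l →
          Real.exp (-(C * gapBound D β * t)) * corr l μ β F 0 ≤ corr l μ β F t) ∧
        ∀ ν : Measure (LinkZ (D + 1) → G), IsInfVol μ β ν → c ≤ corrZ ν F 0 ∧
          ∀ t : ℕ, Odd t → Real.exp (-(C * gapBound D β * t)) * corrZ ν F 0 ≤ corrZ ν F t) ∧
      (∀ M : ℝ, Clusters D μ β M → M ≤ C * gapBound D β) ∧
      (∀ ν : Measure (LinkZ (D + 1) → G), IsInfVol μ β ν → ∀ M : ℝ, ClustersZ ν M →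
        M ≤ C * gapBound D β) ∧
      ∃ ν : Measure (LinkZ (D + 1) → G), IsInfVol μ β ν := by
  obtain ⟨C, c, β₀, hC, hc, hβ₀, h⟩ := Pool.Agent.V11322.Wilson.main G hG μ B hn hD
  refine ⟨C, c, β₀, hC, hc, hβ₀, fun β hβ => ?_⟩
  have h1 := h β hβ
  rw [gapBound_eq hD (by linarith), gapBound_inv hD (by linarith)] at h1
  exact h1

end Pool.Agent.Results.MP_7f377f_mp.MassGapSquareRoot
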