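import Pool.Agent.V11262.OP.Final3

/-!
# Mass gap of four-dimensional lattice Yang-Mills theory, uniformly in the coupling constants of two
orthogonal planes
-/

set_option autoImplicit false

noncomputable section

namespace Pool.Agent.Results.MP_7f377f_mp.OrthogonalPlanes

open MeasureTheory

/-- The sites of `ℤ⁴`. -/
abbrev Site : Type := Fin 4 → ℤ

/-- The links of `ℤ⁴`: `(x, i)` is the link from `x` to `x + e_i`. -/
abbrev Link : Type := Site × Fin 4

/-- The plaquettes of `ℤ⁴`: `(x, i, j)` with `i < j` is the plaquette with the corners `x`,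
`x + e_i`, `x + e_i + e_j`, `x + e_j`. -/
abbrev Plaq : Type := {p : Site × Fin 4 × Fin 4 // p.2.1 < p.2.2}

/-- The plaquette variable `U(x, i) U(x + e_i, j) U(x + e_j, i)⁻¹ U(x, j)⁻¹`. -/
def plaquette {G : Type} [Group G] (U : Link → G) (p : Plaq) : G :=
  U (p.1.1, p.1.2.1) * U (p.1.1 + Pi.single p.1.2.1 1, p.1.2.2) *
    (U (p.1.1 + Pi.single p.1.2.2 1, p.1.2.1))⁻¹ * (U (p.1.1, p.1.2.2))⁻¹

/-- The plaquette lies in the plane `(0, 1)` or in the plane `(2, 3)`. -/
def Orthogonal (p : Plaq) : Prop := (p.1.2.1 = 0 ∧ p.1.2.2 = 1) ∨ (p.1.2.1 = 2 ∧ p.1.2.2 = 3)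

/-- The expectation of `F` in the lattice gauge theory in the finite region `Λ`, a finite set of
plaquettes, with free boundary conditions: the link variables are distributed by the product of the
measures `σ`, with the density `∏_{p ∈ Λ} w_p(U_p)`, normalised. -/
def expect {G : Type} [Group G] [MeasurableSpace G] (σ : Measure G) (w : Plaq → G → ℝ)
    (Λ : Finset Plaq) (F : (Link → G) → ℝ) : ℝ :=
  (∫ U, F U * ∏ p ∈ Λ, w p (plaquette U p) ∂(Measure.infinitePi fun _ : Link => σ)) /
    ∫ U, ∏ p ∈ Λ, w p (plaquette U p) ∂(Measure.infinitePi fun _ : Link => σ)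

/-- `F` is a measurable function of the variables of the links in `A`, bounded by `K`. -/
def IsLocal {G : Type} [MeasurableSpace G] (A : Finset Link) (K : ℝ) (F : (Link → G) → ℝ) :
    Prop :=
  Measurable F ∧ (∀ U, |F U| ≤ K) ∧ ∀ U V : Link → G, (∀ e ∈ A, U e = V e) → F U = F V

/-- The distance `∑_i |x_i - y_i|`. -/
def dist (x y : Site) : ℕ := ∑ i, (x i - y i).natAbs

/-- **Mass gap.**  For every `m > 0` there are `ε > 0` and `C` such that the following holds for
every compact group `G` with normalised Haar measure `σ`.  The plaquettes `p` carry weights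
`w_p ≥ 0`, bounded measurable functions with positive integral, for instance
`w_p(g) = exp (β_p Re tr g)`.  Those in the planes `(0, 1)` and `(2, 3)` are arbitrary (arbitrarily
weak coupling); those in the four other planes satisfy `w_p(g) ≤ (1 + ε) w_p(h)` for all `g`, `h`.
Then the expectations of the local functions in the finite regions `Λ` converge to the expectations
in an infinite-volume state, exponentially fast in the distance from `Λᶜ`, and all truncated
correlations of local functions decay at least like `exp (- m dist)`, in infinite volume and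
uniformly in all finite regions. -/
theorem result (m : ℝ) (hm : 0 < m) : ∃ ε C : ℝ, 0 < ε ∧ 0 < C ∧
    ∀ (G : Type) [Group G] [TopologicalSpace G] [IsTopologicalGroup G] [CompactSpace G]
      [SecondCountableTopology G] [MeasurableSpace G] [BorelSpace G]
      (σ : Measure G) [IsProbabilityMeasure σ] [σ.IsHaarMeasure] (w : Plaq → G → ℝ),
      (∀ p, Measurable (w p)) → (∀ p, ∃ K, ∀ g, 0 ≤ w p g ∧ w p g ≤ K) →
      (∀ p, 0 < ∫ g, w p g ∂σ) → (∀ p, ¬ Orthogonal p → ∀ g h, w p g ≤ (1 + ε) * w p h) →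
      ∃ state : ((Link → G) → ℝ) → ℝ,
        (∀ (A : Finset Link) (K : ℝ) (F : (Link → G) → ℝ), IsLocal A K F →
          ∀ (Λ : Finset Plaq) (D : ℕ), (∀ p, p ∉ Λ → ∀ e ∈ A, D ≤ dist e.1 p.1.1) →
          |expect σ w Λ F - state F| ≤ K * C ^ A.card * Real.exp (-(m * D))) ∧
        ∀ (A B : Finset Link) (K K' : ℝ) (F H : (Link → G) → ℝ) (D : ℕ),
          IsLocal A K F → IsLocal B K' H → (∀ e ∈ A, ∀ f ∈ B, D ≤ dist e.1 f.1) →
          |state (fun U => F U * H U) - state F * state H| ≤
            K * K' * C ^ (A.card + B.card) * Real.exp (-(m * D)) ∧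
          ∀ Λ : Finset Plaq,
            |expect σ w Λ (fun U => F U * H U) - expect σ w Λ F * expect σ w Λ H| ≤
              K * K' * C ^ (A.card + B.card) * Real.exp (-(m * D)) := by
  obtain ⟨ε, C, hε, hC, h⟩ := Pool.Agent.V11262.OP.main m hm
  refine ⟨ε, C, hε, hC, ?_⟩
  intro G _ _ _ _ _ _ _ σ _ _ w hwm hwK hwp hww
  obtain ⟨state, h1, h2⟩ := h G σ w hwm hwK hwp hww
  refine ⟨state, ?_, ?_⟩
  · intro A K F hF Λ D hΛ
    exact h1 A K F hF.1 hF.2.1 (fun U V hUV => hF.2.2 U V fun e he => hUV e he) Λ D hΛ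
  · intro A B K K' F H D hF hH hAB
    exact h2 A B K K' F H D hF.1 hF.2.1 (fun U V hUV => hF.2.2 U V fun e he => hUV e he)
      hH.1 hH.2.1 (fun U V hUV => hH.2.2 U V fun e he => hUV e he) hAB

end Pool.Agent.Results.MP_7f377f_mp.OrthogonalPlanes
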